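import Pool.Agent.Run7.h563.LS.ZG

set_option autoImplicit false

/-!
# Shifts of the order of the mean spacing do not change the size of the moments of zeta

Unconditional, for every real order `β > 0` (in particular `β = 2k`), in Gaussian windows of centre `T` and width
`D`, from `B / √(log T)` up to `T / (2 log T)`. For complex shifts `z / log T`, `|z| ≤ A`:

* the values of zeta at `1/2 + it` and at `1/2 + it + z / log T` are comparable, outside a set of `t` which carries
  an arbitrarily small part of the moment of order `β`;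
* the moment `∫ ∏ |ζ(1/2 + it + z_i / log T)| ^ p_i` with arbitrary real exponents `p_i ≥ 0` of sum `β` lies between
  two positive constants times the moment `∫ |ζ(1/2 + it)| ^ β`; for shifts along the critical line the upper
  constant is `1 + ε`;
* it is continuous at zero, uniformly in `T`: for small `z_i` it is `(1 ± ε) ∫ |ζ(1/2 + it)| ^ β`.
-/

namespace Pool.Agent.Results.MP_07318d_nt.ComparableShifts

open MeasureTheory

noncomputable section

/-- the Gaussian weight of the window of centre `T` and width `D` -/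
def weight (T D t : ℝ) : ℝ := Real.exp (-((t - T) / D) ^ 2)

/-- the absolute value of zeta at `1/2 + it + z / log T` -/
def val (T : ℝ) (z : ℂ) (t : ℝ) : ℝ := ‖riemannZeta (1 / 2 + t * Complex.I + z / Real.log T)‖

/-- the part of the moment of order `β` in the window which is carried by `S` -/
def moment (β T D : ℝ) (S : Set ℝ) : ℝ := ∫ t in S, val T 0 t ^ β * weight T D t

/-- the moment in the window with the exponents `p i` and the shifts `z i / log T` -/
def shifted {m : ℕ} (p : Fin m → ℝ) (z : Fin m → ℂ) (T D : ℝ) : ℝ :=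
  ∫ t : ℝ, (∏ i, val T (z i) t ^ p i) * weight T D t

theorem val_eq (T : ℝ) (z : ℂ) (t : ℝ) :
    val T z t = ‖riemannZeta (Run7.h563.LS.sp t + z / Real.log T)‖ := by
  unfold val Run7.h563.LS.sp
  congr 2
  push_cast
  ring

theorem val_zero (T t : ℝ) : val T 0 t = ‖riemannZeta (Run7.h563.LS.sp t)‖ := by
  rw [val_eq, zero_div, add_zero]

theorem moment_eq (β T D : ℝ) (S : Set ℝ) : moment β T D S =
    ∫ t in S, ‖riemannZeta (Run7.h563.LS.sp t)‖ ^ β * Q97.MM.wt T D t := by
  unfold moment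
  simp only [val_zero]
  rfl

theorem moment_univ (β T D : ℝ) : moment β T D Set.univ = Run7.h563.LS.JB β T D (1 / 2) := by
  rw [moment_eq, setIntegral_univ, Run7.h563.LS.JB_eq_sp]

theorem shifted_eq {m : ℕ} (p : Fin m → ℝ) (z : Fin m → ℂ) (T D : ℝ) : shifted p z T D =
    ∫ t : ℝ, (∏ i, ‖riemannZeta (Run7.h563.LS.sp t + z i / Real.log T)‖ ^ p i) * Q97.MM.wt T D t := by
  unfold shifted
  simp only [val_eq]
  rfl

theorem window {B T D : ℝ} (hB : 0 < B) (hT : 3 ≤ T) (hD : B / √(Real.log T) ≤ D) :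
    0 < D ∧ B ^ 2 ≤ D ^ 2 * Real.log T := by
  have hlog := Run7.h563.LS.log_ge_one hT
  have hL0 : 0 < Real.log T := by linarith
  have hsL : 0 < √(Real.log T) := Real.sqrt_pos.mpr hL0
  have hB' : B ≤ D * √(Real.log T) := (div_le_iff₀ hsL).mp hD
  have hD0 : 0 < D := lt_of_lt_of_le (by positivity) hD
  refine ⟨hD0, ?_⟩
  have e : D ^ 2 * Real.log T = (D * √(Real.log T)) ^ 2 := by rw [mul_pow, Real.sq_sqrt hL0.le]
  rw [e]
  exact pow_le_pow_left₀ hB.le hB' 2

theorem exists_B (B : ℝ) : ∃ B' : ℝ, 0 < B' ∧ B ≤ B' ^ 2 :=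
  ⟨|B| + 1, by positivity, by nlinarith [abs_nonneg B, le_abs_self B]⟩

/-- **Shifts of the order of the mean spacing do not change the size of the moments.** -/
theorem result (β : ℝ) (hβ : 0 < β) :
    -- the values at two points at a distance of the order of the mean spacing are comparable
    (∀ A η : ℝ, 0 < A → 0 < η → ∃ δ : ℝ, 0 < δ ∧ ∃ B T₀ : ℝ, ∀ T D : ℝ, T₀ ≤ T → B / √(Real.log T) ≤ D →
      D ≤ T / (2 * Real.log T) → ∀ z : ℂ, ‖z‖ ≤ A →
        moment β T D {t | val T z t < δ * val T 0 t} ≤ η * moment β T D Set.univ ∧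
        moment β T D {t | val T 0 t < δ * val T z t} ≤ η * moment β T D Set.univ) ∧
    -- the order of magnitude of the moments with shifts
    (∀ (A ε : ℝ) (m : ℕ), 0 < A → 0 < ε → ∃ c : ℝ, 0 < c ∧ ∃ B T₀ : ℝ, ∀ T D : ℝ, T₀ ≤ T →
      B / √(Real.log T) ≤ D → D ≤ T / (2 * Real.log T) → 0 < moment β T D Set.univ ∧
        ∀ (p : Fin m → ℝ) (z : Fin m → ℂ), (∀ i, 0 ≤ p i) → ∑ i, p i = β → (∀ i, ‖z i‖ ≤ A) →
          c * moment β T D Set.univ ≤ shifted p z T D ∧
          shifted p z T D ≤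
            2 * (A + 1) ^ 2 * Real.exp ((β + 1) * (A + 1)) * moment β T D Set.univ ∧
          ((∀ i, (z i).re = 0) → shifted p z T D ≤ (1 + ε) * moment β T D Set.univ)) ∧
    -- continuity at zero, uniformly in T
    ∀ (ε : ℝ) (m : ℕ), 0 < ε → ∃ δ : ℝ, 0 < δ ∧ ∃ B T₀ : ℝ, ∀ T D : ℝ, T₀ ≤ T →
      B / √(Real.log T) ≤ D → D ≤ T / (2 * Real.log T) →
        ∀ (p : Fin m → ℝ) (z : Fin m → ℂ), (∀ i, 0 ≤ p i) → ∑ i, p i = β → (∀ i, ‖z i‖ ≤ δ) →
          |shifted p z T D - moment β T D Set.univ| ≤ ε * moment β T D Set.univ := by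
  refine ⟨fun A η hA hη => ?_, fun A ε m hA hε => ?_, fun ε m hε => ?_⟩
  · obtain ⟨δ, hδ, B, T₀, hT₀, h⟩ := Run7.h563.LS.nearby_sets hβ hA hη
    obtain ⟨B', hB', hBB⟩ := exists_B B
    refine ⟨δ, hδ, B', T₀, fun T D hT hD hDT z hz => ?_⟩
    obtain ⟨w1, w2⟩ := window hB' (by linarith) hD
    have h1 := h T D hT w1 (hBB.trans w2) hDT z hz
    rw [moment_univ]
    simp only [moment_eq, val_eq, zero_div, add_zero]
    exact h1
  · obtain ⟨c, hc, B, T₀, hT₀, h⟩ := Run7.h563.LS.prod_order hβ hA hε m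
    obtain ⟨B', hB', hBB⟩ := exists_B B
    refine ⟨c, hc, B', T₀, fun T D hT hD hDT => ?_⟩
    obtain ⟨w1, w2⟩ := window hB' (by linarith) hD
    obtain ⟨hJ, h1⟩ := h T D hT w1 (hBB.trans w2) hDT
    rw [moment_univ]
    refine ⟨hJ, fun p z hp hs hz => ?_⟩
    rw [shifted_eq]
    exact h1 p z hp hs hz
  · obtain ⟨δ, hδ, B, T₀, hT₀, h⟩ := Run7.h563.LS.prod_cont hβ hε m
    obtain ⟨B', hB', hBB⟩ := exists_B B
    refine ⟨δ, hδ, B', T₀, fun T D hT hD hDT p z hp hs hz => ?_⟩
    obtain ⟨w1, w2⟩ := window hB' (by linarith) hD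
    rw [moment_univ, shifted_eq]
    exact h T D hT w1 (hBB.trans w2) hDT p z hp hs hz

end

end Pool.Agent.Results.MP_07318d_nt.ComparableShifts
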