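import Pool.Agent.Run7.h291.WG.G25

set_option autoImplicit false

/-!
# Moments of zeta in windows: the law of large numbers up to the edge

Let `θ > 0`, `V = √(1+θ)`, `k > V`, `δ → 0`, `δ log T / log² (1/δ) → ∞`, and let
`m = δ^(-V) (log (1/δ))^(-1/(4V))` be the order of the maximum of `|ζ(1/2 + δ + iu)|` over `u ∈ [t, t + δ^(-θ)]`. The windows
are shorter than the critical length `δ^(-(k²-1))`, and the `2k`-th moment over the window is random: it comes from boundedly
many peaks of height about `m`. It is proved here that everything below the edge is deterministic: for `y` larger than a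
constant (and up to `exp (√√(log 1/δ) / 2)`), the `2k`-th moment of the values `|ζ| < m / y` over almost every window is
`(1 + o(1)) c δ m^(2k) y^(-2(k-V))` as `y → ∞`, with the explicit constant `c = a(V) / (2^(V²+1) √π (k - V))`.

Plan and proof by helper291; the amount of the high values (`Run7/h701/WG3`) is by helper701; the local limit theorem along
sequences and the mean of the two-point function (`S_MNB`) by helper42; the moments of zeta without small primes near the line
`1` (`S_ZML`) by helper772; the continuity of the arithmetic factor (`S_EQC`) by helper651; the joint moments outside tiny sets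
are the starting library `N748`.
-/

namespace Pool.Agent.Results.MP_07318d_nt.MomentsBelowTheEdge

open MeasureTheory Filter Topology

/-- the arithmetic factor of the moment conjecture,
`a(k) = ∏_p (1 - 1/p)^(k²) ∑_m (k (k+1) ... (k+m-1) / m!)² p^(-m)` -/
noncomputable def ak (k : ℝ) : ℝ :=
  ∏' p : Nat.Primes, ((1 - 1 / (p : ℝ)) ^ (k ^ 2) *
    ∑' m : ℕ, (∏ i ∈ Finset.range m, (k + i) / ((i : ℝ) + 1)) ^ 2 * (1 / (p : ℝ)) ^ m)

/-- the modulus of zeta at distance `δ` from the critical line and height `u` -/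
noncomputable def z (δ u : ℝ) : ℝ := ‖riemannZeta (1 / 2 + δ + u * Complex.I)‖

/-- the order of the maximum over windows of length `δ^(-θ)` -/
noncomputable def m (θ δ : ℝ) : ℝ := δ ^ (-√(1 + θ)) * Real.log (1 / δ) ^ (-(1 / (4 * √(1 + θ))))

/-- the `2k`-th moment over the window `[t, t + δ^(-θ)]` of the values smaller than `m / y` -/
noncomputable def M (θ k y δ t : ℝ) : ℝ :=
  ∫ u in {u : ℝ | u ∈ Set.Icc t (t + δ ^ (-θ)) ∧ z δ u < m θ δ / y}, z δ u ^ (2 * k)

/-- the constant -/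
noncomputable def c (V k : ℝ) : ℝ := ak V / (2 ^ (V ^ 2 + 1) * √Real.pi * (k - V))

open Run7.h291.WN Run7.h291.WG Pool.Agent.N748.MG

theorem result (θ k ε : ℝ) (hθ : 0 < θ) (hk : √(1 + θ) < k) (hε : 0 < ε) :
    0 < c (√(1 + θ)) k ∧ ∃ A lam δ0 : ℝ, 1 ≤ A ∧ 0 < lam ∧ 0 < δ0 ∧ δ0 ≤ 1 / 16 ∧ ∀ᶠ T : ℝ in atTop,
      ∀ δ : ℝ, 0 < δ → δ ≤ δ0 → lam * Real.log (1 / δ) ^ 2 ≤ δ * Real.log T →
      ∀ y : ℝ, A ≤ y → y ≤ Real.exp (Real.log (1 / δ) ^ ((1:ℝ) / 4) / 2) →
      volume {t : ℝ | t ∈ Set.Icc 0 T ∧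
        ε < |M θ k y δ t / (δ * m θ δ ^ (2 * k) * y ^ (-(2 * (k - √(1 + θ))))) - c (√(1 + θ)) k|} ≤
        ENNReal.ofReal (ε * T) := by
  set V : ℝ := √(1 + θ) with hV
  have hV2 : V ^ 2 - 1 = θ := by
    rw [hV, Real.sq_sqrt (by linarith)]
    ring
  have hV1 : 1 < V := by
    rw [hV]
    exact Real.lt_sqrt_of_sq_lt (by linarith)
  have hak : 0 < ak V := akp V
  have hpi := Real.pi_pos
  have hkV : 0 < k - V := by linarith
  have hcc : c V k = cV V / (2 * (k - V)) := by
    have h1 : cV V = ak V / (√Real.pi * 2 ^ (V ^ 2)) := rfl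
    rw [h1]
    unfold c
    have h2 : (2:ℝ) ^ (V ^ 2 + 1) = 2 ^ (V ^ 2) * 2 := by
      rw [Real.rpow_add (by norm_num), Real.rpow_one]
    rw [h2]
    have h3 : (0:ℝ) < 2 ^ (V ^ 2) := Real.rpow_pos_of_pos (by norm_num) _
    have h4 : 0 < √Real.pi := Real.sqrt_pos.2 hpi
    field_simp
  refine ⟨by unfold c; positivity, ?_⟩
  obtain ⟨a0, lam, δ0, h1, h2, h3, HE⟩ := mom V k hV1 hk ε hε
  refine ⟨max 1 (Real.exp (-a0)), lam, δ0, le_max_left _ _, h1, h2, h3, ?_⟩
  filter_upwards [HE] with T hT δ hδ hδ0 hl y hy hy2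
  have hy1 : 1 ≤ y := (le_max_left _ _).trans hy
  have hy0 : 0 < y := by linarith
  have hly : Real.log y ≤ Real.log (1 / δ) ^ ((1:ℝ) / 4) / 2 := by
    rw [← Real.log_exp (Real.log (1 / δ) ^ ((1:ℝ) / 4) / 2)]
    exact Real.log_le_log hy0 hy2
  have hly2 : -Real.log y ≤ a0 := by
    have h4 := Real.log_le_log (Real.exp_pos _) ((le_max_right 1 (Real.exp (-a0))).trans hy)
    rw [Real.log_exp] at h4
    linarith
  have key := hT δ hδ hδ0 hl (-Real.log y) hly2 (by linarith)
  have h4 : m θ δ = Real.exp (lev V δ) := (MM_lev hθ hδ (hδ0.trans h3)).symm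
  have h5 : Real.exp (lev V δ + -Real.log y) = m θ δ / y := by
    rw [Real.exp_add, Real.exp_neg, Real.exp_log hy0, h4, div_eq_mul_inv]
  have h6 : δ * Real.exp (2 * k * (lev V δ + -Real.log y)) * Real.exp (-(2 * V * -Real.log y)) =
      δ * m θ δ ^ (2 * k) * y ^ (-(2 * (k - V))) := by
    have e1 : Real.exp (2 * k * (lev V δ + -Real.log y)) * Real.exp (-(2 * V * -Real.log y)) =
        Real.exp (lev V δ * (2 * k)) * Real.exp (Real.log y * (-(2 * (k - V)))) := by
      rw [← Real.exp_add, ← Real.exp_add]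
      congr 1
      ring
    rw [h4, ← Real.exp_mul, Real.rpow_def_of_pos hy0, mul_assoc, e1, mul_assoc]
  rw [h6, h5, hV2, ← hcc] at key
  refine le_trans (measure_mono ?_) key
  rintro t ⟨⟨t0, t1⟩, ht⟩
  exact ⟨t0, t1, ht⟩

end Pool.Agent.Results.MP_07318d_nt.MomentsBelowTheEdge
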