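import Pool.Agent.Run7.h290.RB.D

set_option autoImplicit false

/-!
# MP_07318d_nt: the full main term for all real orders below four, over the whole interval, near the critical line

Let `ζ_j = ζ(1/2 + δ + i(t + h_j))`, `1 ≤ j ≤ m`, with real shifts `|h_j| ≤ T^(1/2)`, and consider the means over `0 ≤ t ≤ T` of
`∏ |ζ_j|^(2 b_j) (ζ_j/|ζ_j|)^(n_j)`, with complex `b_j`, `Re b_j ≥ 0`, and integers `n_j`. With `s_j = b_j + n_j/2` and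
`r_j = b_j - n_j/2` this is the product of `∏ ζ_j^(s_j)` and of the conjugate of `∏ ζ_j^(conj r_j)`; the first term of the recipe
is the diagonal Dirichlet series `∑_q c_s(q) conj(c_(conj r)(q)) q^(-1-2δ)`. Everything is uniform in the range
`0 < δ ≤ δ0`, `δ log T ≥ λ log² (1/δ)`, `T ≥ T0`, in the shifts and in the exponents (in bounded sets).

* (1) If the total order `2 ∑ Re b_j` is at most `2K < 4`, the mean over the whole interval `[0, T]` (no truncation, no exceptional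
  set) is the diagonal series up to `δ^D`, for every `D`.
* (2) For every order the same holds for the mean over the points at which no `|ζ_j|` is larger than `δ^(-V)`, for all `V ≥ V0`.
* (3) In (1), for `n = 0` and real `k_j = b_j ≥ 0`, the mean is asymptotically `a(k,h) ∏ |ζ(1 + 2δ + i(h_j - h_l))|^(k_j k_l)`, with
  `a(k,h) ≥ c > 0`.
-/

open Filter Topology MeasureTheory

namespace Pool.Agent.Results.MP_07318d_nt.RecipeBelowOrderFour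

/-- `s (s+1) ... (s+r-1) / r!` -/
noncomputable def binom (s : ℂ) (r : ℕ) : ℂ := ∏ i ∈ Finset.range r, (s + i) / ((i : ℂ) + 1)

/-- the coefficient of `x^r` in `∏_j (1 - x p^(-i h_j))^(-s_j)` -/
noncomputable def loc {m : ℕ} (s : Fin m → ℂ) (h : Fin m → ℝ) (p r : ℕ) : ℂ :=
  ∑ μ ∈ Finset.piAntidiag (Finset.univ : Finset (Fin m)) r,
    ∏ j, binom (s j) (μ j) * (p : ℂ) ^ (-((μ j * h j : ℝ) * Complex.I))

/-- the `q`-th coefficient of the Dirichlet series of `∏_j ζ(w + i h_j)^(s_j)` -/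
noncomputable def coef {m : ℕ} (s : Fin m → ℂ) (h : Fin m → ℝ) (q : ℕ) : ℂ :=
  ∏ p ∈ q.primeFactors, loc s h p (q.factorization p)

/-- the diagonal series `∑_q c_s(q) conj(c_(conj r)(q)) q^(-1-2δ)`, `s = b + n/2`, `r = b - n/2` -/
noncomputable def diag {m : ℕ} (b : Fin m → ℂ) (n : Fin m → ℤ) (h : Fin m → ℝ) (δ : ℝ) : ℂ :=
  ∑' q : ℕ, coef (fun j => b j + (n j : ℂ) / 2) h q *
    (starRingEnd ℂ) (coef (fun j => (starRingEnd ℂ) (b j - (n j : ℂ) / 2)) h q) * (((q : ℝ) ^ (-(1 + 2 * δ)) : ℝ) : ℂ)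

/-- `ζ(1/2 + δ + iu)` -/
noncomputable def z (δ u : ℝ) : ℂ := riemannZeta (1 / 2 + δ + u * Complex.I)

/-- `∏_j |ζ_j|^(2 b_j) (ζ_j/|ζ_j|)^(n_j)` -/
noncomputable def prod {m : ℕ} (b : Fin m → ℂ) (n : Fin m → ℤ) (h : Fin m → ℝ) (δ t : ℝ) : ℂ :=
  ∏ j, ((‖z δ (t + h j)‖ : ℝ) : ℂ) ^ (2 * b j) * (z δ (t + h j) / (‖z δ (t + h j)‖ : ℝ)) ^ n j

/-- the mean of the product over `[0, T]` -/
noncomputable def mean {m : ℕ} (b : Fin m → ℂ) (n : Fin m → ℤ) (h : Fin m → ℝ) (δ T : ℝ) : ℂ :=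
  (1 / (T : ℂ)) * ∫ t in Set.Icc 0 T, prod b n h δ t

/-- the mean over the points of `[0, T]` at which no `|ζ_j|` is larger than `c` -/
noncomputable def meanBelow {m : ℕ} (c : ℝ) (b : Fin m → ℂ) (n : Fin m → ℤ) (h : Fin m → ℝ) (δ T : ℝ) : ℂ :=
  (1 / (T : ℂ)) * ∫ t in {t : ℝ | t ∈ Set.Icc 0 T ∧ ∀ j, ‖z δ (t + h j)‖ ≤ c}, prod b n h δ t

/-- the mean of `∏_j |ζ_j|^(2 k_j)` over `[0, T]` -/
noncomputable def meanAbs {m : ℕ} (k : Fin m → ℝ) (h : Fin m → ℝ) (δ T : ℝ) : ℝ :=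
  (1 / T) * ∫ t in Set.Icc 0 T, ∏ j, ‖z δ (t + h j)‖ ^ (2 * k j)

/-- the arithmetic factor: the product over the primes of `∏_(j,l) (1 - p^(-1-i(h_j-h_l)))^(k_j k_l)` times
`∑_r |loc k h p r|^2 p^(-r)` -/
noncomputable def arith {m : ℕ} (k : Fin m → ℝ) (h : Fin m → ℝ) : ℝ :=
  (∏' p : Nat.Primes, (∏ j, ∏ l, (1 - ((p : ℕ) : ℂ) ^ (-(1 + ((h j - h l : ℝ) : ℂ) * Complex.I))) ^ ((k j : ℂ) * (k l : ℂ))) *
    ∑' r : ℕ, loc (fun j => (k j : ℂ)) h p r * (starRingEnd ℂ) (loc (fun j => (k j : ℂ)) h p r) *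
      ((((p : ℕ) : ℝ) ^ (-(1 : ℝ)) : ℝ) : ℂ) ^ r).re

/-- `P T δ` holds for all large `T` and all `δ` with `0 < δ ≤ δ0` and `δ log T ≥ lam log² (1/δ)`, for some `lam` and `δ0` -/
def Adm (P : ℝ → ℝ → Prop) : Prop := ∃ lam δ0 : ℝ, 0 < lam ∧ 0 < δ0 ∧ ∀ᶠ T : ℝ in atTop, ∀ δ : ℝ, 0 < δ → δ ≤ δ0 →
  lam * Real.log (1 / δ) ^ 2 ≤ δ * Real.log T → P T δ

/-- the exponents: `|b_j|, |n_j| ≤ R`, `Re b_j ≥ 0` and `∑ Re b_j ≤ K` -/
def Exps {m : ℕ} (R K : ℝ) (b : Fin m → ℂ) (n : Fin m → ℤ) : Prop :=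
  (∀ j, ‖b j‖ ≤ R) ∧ (∀ j, |((n j : ℤ) : ℝ)| ≤ R) ∧ (∀ j, 0 ≤ (b j).re) ∧ ∑ j, (b j).re ≤ K

theorem result (m : ℕ) (R D K : ℝ) (hR : 0 < R) (hD : 0 < D) (hK : 0 ≤ K) :
    (K < 2 → Adm fun T δ => ∀ h : Fin m → ℝ, (∀ j, |h j| ≤ T ^ ((1:ℝ) / 2)) → ∀ (b : Fin m → ℂ) (n : Fin m → ℤ), Exps R K b n →
      ‖mean b n h δ T - diag b n h δ‖ ≤ δ ^ D) ∧
    (∃ V0 : ℝ, ∀ V : ℝ, V0 ≤ V → Adm fun T δ => ∀ h : Fin m → ℝ, (∀ j, |h j| ≤ T ^ ((1:ℝ) / 2)) →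
      ∀ (b : Fin m → ℂ) (n : Fin m → ℤ), Exps R K b n → ‖meanBelow (δ ^ (-V)) b n h δ T - diag b n h δ‖ ≤ δ ^ D) ∧
    (K < 2 → ∃ c : ℝ, 0 < c ∧ ∀ ε : ℝ, 0 < ε → Adm fun T δ => ∀ h : Fin m → ℝ, (∀ j, |h j| ≤ T ^ ((1:ℝ) / 2)) →
      ∀ k : Fin m → ℝ, (∀ j, 0 ≤ k j) → ∑ j, k j ≤ K → c ≤ arith k h ∧
        |meanAbs k h δ T / (arith k h * ∏ j, ∏ l, ‖riemannZeta (1 + 2 * δ + ((h j - h l : ℝ) : ℂ) * Complex.I)‖ ^ (k j * k l)) - 1|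
          ≤ ε) := by
  have hadm : ∀ {P Q : ℝ → ℝ → Prop}, Pool.Agent.N748.MG.Ev P →
      (∀ X δ : ℝ, 1 ≤ X → 0 < δ → δ ≤ 1 / 16 → P X δ → Q X δ) → Adm Q := by
    intro P Q h1 h2
    obtain ⟨lam, δ0, h3, h4, _, h6⟩ := h1.mono h2
    exact ⟨lam, δ0, h3, h4, h6⟩
  have ez : ∀ d t : ℝ, z d t = riemannZeta (Pool.Agent.N748.MG.pw d t) := fun _ _ => rfl
  have ediag : ∀ (b : Fin m → ℂ) (n : Fin m → ℤ) (h : Fin m → ℝ) (δ : ℝ), diag b n h δ = Pool.Agent.Run7.h290.RB.S b n h δ :=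
    fun _ _ _ _ => rfl
  have eprod : ∀ (b : Fin m → ℂ) (n : Fin m → ℤ) (h : Fin m → ℝ) (δ t : ℝ), prod b n h δ t =
      Pool.Agent.Run7.h290.RB.F b n h δ t := fun _ _ _ _ _ => rfl
  have conv : ∀ {X δ : ℝ} {I S : ℂ}, 1 ≤ X → ‖I - X * S‖ ≤ δ ^ D * X → ‖(1 / (X : ℂ)) * I - S‖ ≤ δ ^ D := by
    intro X δ I S hX h
    have hX0 : 0 < X := by linarith
    have hXc : (X : ℂ) ≠ 0 := by exact_mod_cast hX0.ne'
    have e1 : (1 / (X : ℂ)) * I - S = (1 / (X : ℂ)) * (I - X * S) := by field_simp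
    rw [e1, norm_mul, norm_div, norm_one, Complex.norm_real, Real.norm_of_nonneg hX0.le, one_div, inv_mul_le_iff₀ hX0]
    linarith
  refine ⟨fun hK2 => ?_, ?_, fun hK2 => ?_⟩
  · refine hadm (Pool.Agent.Run7.h290.RB.full (m := m) hR hD hK hK2) ?_
    intro X δ hX _ _ g h hh b n hE
    exact conv hX (g h hh b n hE.1 hE.2.1 hE.2.2.1 hE.2.2.2)
  · obtain ⟨V0, hV0⟩ := Pool.Agent.Run7.h290.RB.trunc (m := m) hR hD hK
    refine ⟨V0, fun V hV => hadm (hV0 V hV) ?_⟩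
    intro X δ hX _ _ g h hh b n hE
    exact conv hX (g h hh b n hE.1 hE.2.1 hE.2.2.1 hE.2.2.2)
  · obtain ⟨c, hc, hlim⟩ := Pool.Agent.Run7.h290.RB.leadR (m := m) hK hK2
    refine ⟨c, hc, fun ε hε => hadm (hlim ε hε) ?_⟩
    intro X δ hX _ _ g h hh k hk hkK
    have g1 := g h hh k hk hkK
    have ea : (Pool.Agent.N748.MJ.aV (Pool.Agent.N748.MJ.SM.cc k) (Pool.Agent.N748.MJ.SM.cc k) h).re = arith k h := by
      unfold arith Pool.Agent.N748.MJ.aV Pool.Agent.N748.MJ.gV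
      congr 2
      funext p
      have e0 : Pool.Agent.N748.MJ.cj (Pool.Agent.N748.MJ.SM.cc k) = fun j => (k j : ℂ) := by
        funext j
        simp [Pool.Agent.N748.MJ.cj, Pool.Agent.N748.MJ.SM.cc]
      rw [e0]
      congr 1
      · refine Finset.prod_congr rfl fun j _ => Finset.prod_congr rfl fun l _ => ?_
        simp [Pool.Agent.N748.MJ.SM.cc]
      · refine tsum_congr fun r => ?_
        have e1 : (-(1 + 2 * (0:ℝ))) = -(1:ℝ) := by norm_num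
        rw [e1]
        rfl
    have ez2 : ∀ u : ℝ, riemannZeta (((1 + 2 * δ : ℝ) : ℂ) + (u : ℂ) * Complex.I) = riemannZeta (1 + 2 * δ + (u : ℂ) * Complex.I) := by
      intro u
      congr 1
      push_cast
      rfl
    rw [ea] at g1
    simp_rw [ez2] at g1
    exact g1

end Pool.Agent.Results.MP_07318d_nt.RecipeBelowOrderFour
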