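import Pool.Agent.Run7.h518.SW.Pow

/-!
# The full main term of the moments of zeta in almost all windows near the critical line

Let `A_k` and `G` be the functions of the page in the definition of the moment polynomial `P_k`; we write
`z_1, …, z_k` for the first half of the variables and `z'_1, …, z'_k` for the second half, so that
`G(z, z') = A_k(z, z') ∏_{i,j} ζ(1 + z_i - z'_j)`.

Unconditionally, for every `k`, uniformly in `C loglog T / log T ≤ δ ≤ 1/24` and in all real shifts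
`a_1, …, a_k, b_1, …, b_k` of absolute value at most `T/2`, the product

`Z(u) = ∏_j ζ(1/2 + δ + i (u + a_j)) ∏_j ζ(1/2 + δ - i (u + b_j))`

(for `a = b = 0` this is `|ζ(1/2 + δ + i u)|^(2k)`) has the mean value
`G(δ + i a, -δ + i b) + O((log T)^(-D))` over all windows `[t, t + H]` with
`(log T)^F ≤ H ≤ T^(cδ)` at once, for all `t` in `(0, T]` outside a set of measure at most
`T (log T)^(-D)`. Here `G(δ + i a, -δ + i b)` is the term of the recipe of Conrey, Farmer, Keating,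
Rubinstein and Snaith which belongs to the identity, with all its lower order terms.
-/

set_option autoImplicit false

namespace Pool.Agent.Results.MP_07318d_nt.RecipeInWindows

open MeasureTheory Finset Complex

noncomputable section

/-- `e(θ) = exp(2 π i θ)` -/
def e (θ : ℝ) : ℂ := Complex.exp (2 * Real.pi * θ * I)

/-- The arithmetic factor `A_k(z_1, …, z_k, z'_1, …, z'_k)` of the page. -/
def A {k : ℕ} (z z' : Fin k → ℂ) : ℂ :=
  ∏' p : Nat.Primes, ((∏ i, ∏ j, (1 - (p : ℂ) ^ (-1 - z i + z' j))) *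
    ∫ θ in (0 : ℝ)..1, ∏ j, ((1 - e θ / (p : ℂ) ^ (1 / 2 + z j))⁻¹ *
      (1 - e (-θ) / (p : ℂ) ^ (1 / 2 - z' j))⁻¹))

/-- The function `G(z_1, …, z_k, z'_1, …, z'_k)` of the page. -/
def G {k : ℕ} (z z' : Fin k → ℂ) : ℂ := A z z' * ∏ i, ∏ j, riemannZeta (1 + z i - z' j)

/-- The shifted product `∏_j ζ(1/2 + δ + i (u + a_j)) ∏_j ζ(1/2 + δ - i (u + b_j))`. -/
def Z (δ : ℝ) {k : ℕ} (a b : Fin k → ℝ) (u : ℝ) : ℂ :=
  ∏ j, (riemannZeta (1 / 2 + δ + (u + a j) * I) * riemannZeta (1 / 2 + δ - (u + b j) * I))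

/-- The mean value of `f` over the window `[t, t + H]`. -/
def mean (f : ℝ → ℂ) (H t : ℝ) : ℂ := (1 / (H : ℂ)) * ∫ u in t..(t + H), f u

lemma Z_eq (δ : ℝ) {k : ℕ} (a b : Fin k → ℝ) : Z δ a b = Run7.h518.SW.ZZ δ a b := by
  funext u
  unfold Z Run7.h518.SW.ZZ Pool.Agent.Y746.OA.sp
  rw [map_prod, ← prod_mul_distrib]
  refine prod_congr rfl fun j _ => ?_
  rw [← riemannZeta_conj]
  congr 1
  · congr 1
    push_cast
    ring
  · congr 1
    simp only [map_add, map_mul, Complex.conj_ofReal, Complex.conj_I]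
    push_cast
    ring

lemma G_eq {k : ℕ} (a b : Fin k → ℝ) {δ : ℝ} (hδ : 0 < δ) (hδ1 : δ ≤ 1) :
    G (fun j => (δ : ℂ) + a j * I) (fun j => -(δ : ℂ) + b j * I) =
      Run7.h518.SW.dd (Pool.Agent.Y746.CS.Tk a) (Pool.Agent.Y746.CS.Tk b) δ :=
  Run7.h518.SW.dd_G a b hδ hδ1

lemma mean_eq (f : ℝ → ℂ) {H : ℝ} (hH : 0 ≤ H) (t : ℝ) : mean f H t = Run7.h518.SW.wm f H t := by
  unfold mean Run7.h518.SW.wm
  rw [← intervalIntegral.integral_of_le hH, intervalIntegral.integral_comp_add_left, add_zero]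

/-- The full main term in almost all windows near the critical line. -/
theorem result :
    (∀ (k : ℕ) (δ u : ℝ), Z δ (0 : Fin k → ℝ) 0 u =
      ((‖riemannZeta (1 / 2 + δ + u * I)‖ ^ (2 * k) : ℝ) : ℂ)) ∧
    ∀ k : ℕ, ∃ c : ℝ, 0 < c ∧ ∀ D : ℕ, ∃ (F : ℕ) (C T₀ : ℝ), ∀ T : ℝ, T₀ ≤ T →
      ∀ δ : ℝ, C * Real.log (Real.log T) / Real.log T ≤ δ → δ ≤ 1 / 24 →
      Real.log T ^ F ≤ T ^ (c * δ) ∧
      ∀ a b : Fin k → ℝ, (∀ j, |a j| ≤ T / 2) → (∀ j, |b j| ≤ T / 2) →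
      volume {t : ℝ | 0 < t ∧ t ≤ T ∧ ∃ H : ℝ, Real.log T ^ F ≤ H ∧ H ≤ T ^ (c * δ) ∧
        1 / Real.log T ^ D <
          ‖mean (Z δ a b) H t - G (fun j => (δ : ℂ) + a j * I) (fun j => -(δ : ℂ) + b j * I)‖} ≤
        ENNReal.ofReal (T / Real.log T ^ D) := by
  refine ⟨?_, ?_⟩
  · intro k δ u
    unfold Z
    have h : ∀ j : Fin k, riemannZeta (1 / 2 + δ + (u + ((0 : Fin k → ℝ) j : ℝ)) * I) *
        riemannZeta (1 / 2 + δ - (u + ((0 : Fin k → ℝ) j : ℝ)) * I) =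
        ((‖riemannZeta (1 / 2 + δ + u * I)‖ ^ 2 : ℝ) : ℂ) := by
      intro j
      rw [Pi.zero_apply, Complex.ofReal_zero, add_zero]
      have h2 : riemannZeta (1 / 2 + δ - u * I) =
          (starRingEnd ℂ) (riemannZeta (1 / 2 + δ + u * I)) := by
        rw [← riemannZeta_conj]
        congr 1
        simp only [map_add, map_mul, map_div₀, map_one, Complex.conj_ofReal, Complex.conj_I,
          map_ofNat]
        ring
      rw [h2, Complex.mul_conj, Complex.normSq_eq_norm_sq]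
    simp_rw [h]
    rw [prod_const, card_univ, Fintype.card_fin, pow_mul]
    push_cast
    rfl
  · intro k
    obtain ⟨c, hc, h⟩ := Run7.h518.SW.untr_D k k
    refine ⟨c, hc, fun D => ?_⟩
    obtain ⟨F, C, T0, hC, hT0, g⟩ := h D
    refine ⟨F, C, T0, fun T hT δ hδ hδ1 => ?_⟩
    obtain ⟨g1, g2⟩ := g T hT δ hδ hδ1
    obtain ⟨hL3, hTp, hδ0, h2δ⟩ := Run7.h518.SW.params hC (hT0.trans hT) hδ
    refine ⟨g1, fun a b ha hb => ?_⟩
    rw [G_eq a b hδ0 (by linarith), Z_eq]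
    refine le_trans (measure_mono ?_) (g2 a b ha hb)
    rintro t ⟨t0, t1, H, a1, a2, a3⟩
    have hH : 0 ≤ H := le_trans (by positivity) a1
    rw [mean_eq _ hH] at a3
    exact ⟨⟨t0, t1⟩, H, a1, a2, a3⟩

end

end Pool.Agent.Results.MP_07318d_nt.RecipeInWindows
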